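import Pool.Agent.helper84.VN.Spec4n

/-!
# Project VN (MP_07c750_an), row vn:GN4: Gronwall for the difference of two orbits
-/

set_option autoImplicit false

open scoped MatrixGroups ContDiff Topology UpperHalfPlane ComplexConjugate ENNReal
open UpperHalfPlane MeasureTheory Filter Set

namespace Pool.Agent.VN

open Pool.Agent.RS Pool.Agent.VQ
open Pool.Agent.VQE (nm)

theorem GN4_m {x y X Y : ℝ} (hx : |x| ≤ X) (hy : |y| ≤ Y) : |x * y| ≤ X * Y := by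
  rw [abs_mul]
  exact mul_le_mul hx hy (abs_nonneg y) ((abs_nonneg x).trans hx)

theorem GN4_gron_pos {F : Type*} [NormedAddCommGroup F] [NormedSpace ℝ F] (u u' : ℝ → F) (hu : ∀ s, HasDerivAt u (u' s) s)
    (K ε : ℝ) (hK : 1 ≤ K) (hε : 0 ≤ ε) (hb : ∀ s, ‖u' s‖ ≤ K * ‖u s‖ + K * ε) (t : ℝ) (ht : 0 ≤ t) :
    ‖u t‖ ≤ (‖u 0‖ + ε) * Real.exp (K * t) := by
  have h := norm_le_gronwallBound_of_norm_deriv_right_le (f := u) (f' := u') (δ := ‖u 0‖) (K := K) (ε := K * ε) (a := 0) (b := t)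
    (fun s _ => (hu s).continuousAt.continuousWithinAt) (fun s _ => (hu s).hasDerivWithinAt) le_rfl (fun s _ => hb s) t ⟨ht, le_rfl⟩
  refine h.trans ?_
  rw [sub_zero, gronwallBound_of_K_ne_0 (by linarith)]
  have h2 : K * ε / K = ε := by
    rw [mul_comm, mul_div_assoc, div_self (by linarith : K ≠ 0), mul_one]
  rw [h2]
  linarith

theorem GN4_gron {F : Type*} [NormedAddCommGroup F] [NormedSpace ℝ F] (u u' : ℝ → F) (hu : ∀ s, HasDerivAt u (u' s) s)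
    (K ε : ℝ) (hK : 1 ≤ K) (hε : 0 ≤ ε) (hb : ∀ s, ‖u' s‖ ≤ K * ‖u s‖ + K * ε) (t : ℝ) :
    ‖u t‖ ≤ (‖u 0‖ + ε) * Real.exp (K * |t|) := by
  rcases le_total 0 t with ht | ht
  · rw [abs_of_nonneg ht]
    exact GN4_gron_pos u u' hu K ε hK hε hb t ht
  · rw [abs_of_nonpos ht]
    have h := GN4_gron_pos (fun s => u (-s)) (fun s => -(u' (-s))) (fun s => by
      have h1 : HasDerivAt (u ∘ Neg.neg) ((-1 : ℝ) • u' (-s)) s := (hu (-s)).scomp s (hasDerivAt_neg s)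
      rw [neg_one_smul] at h1
      exact h1) K ε hK hε (fun s => by rw [norm_neg]; exact hb (-s)) (-t) (by linarith)
    simpa using h

theorem GN4_a {C N ε r r' k k' a b c : ℝ} (hr : |r| ≤ C) (hr' : |r'| ≤ C) (hk : |k| ≤ C) (hk' : |k'| ≤ C)
    (hrr : |r' - r| ≤ C * (N + ε)) (hε : 0 ≤ ε) (ha : |a - 1| ≤ N) (hb : |b| ≤ N) (hc : |c| ≤ N) :
    |(r' - r) / 2 * a - (k' * b + k * c) / 2| ≤ 3 * C * N + 3 * C * ε := by
  have hN : 0 ≤ N := (abs_nonneg _).trans hb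
  have hC : 0 ≤ C := (abs_nonneg _).trans hr
  have h0 : |r' - r| ≤ 2 * C := by
    rw [abs_le] at *
    constructor <;> linarith
  have h1 := abs_le.1 (GN4_m h0 ha)
  have h2 := abs_le.1 hrr
  have h3 := abs_le.1 (GN4_m hk' hb)
  have h4 := abs_le.1 (GN4_m hk hc)
  have h5 : 0 ≤ C * N := mul_nonneg hC hN
  have h6 : 0 ≤ C * ε := mul_nonneg hC hε
  rw [abs_le]
  constructor <;> linarith [h1.1, h1.2, h2.1, h2.2, h3.1, h3.2, h4.1, h4.2]

theorem GN4_c {C N ε r r' k k' a c e : ℝ} (hr : |r| ≤ C) (hr' : |r'| ≤ C) (hk : |k| ≤ C) (hk' : |k'| ≤ C)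
    (hkk : |k' - k| ≤ C * (N + ε)) (hε : 0 ≤ ε) (ha : |a - 1| ≤ N) (hc : |c| ≤ N) (he : |e - 1| ≤ N) :
    |(r + r') / 2 * c + (k * a - k' * e) / 2| ≤ 3 * C * N + 3 * C * ε := by
  have hN : 0 ≤ N := (abs_nonneg _).trans hc
  have hC : 0 ≤ C := (abs_nonneg _).trans hr
  have h0 : |(r + r') / 2| ≤ C := by
    rw [abs_le] at *
    constructor <;> linarith
  have h1 := abs_le.1 (GN4_m h0 hc)
  have h2 := abs_le.1 hkk
  have h3 := abs_le.1 (GN4_m hk' he)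
  have h4 := abs_le.1 (GN4_m hk ha)
  have h5 : 0 ≤ C * N := mul_nonneg hC hN
  have h6 : 0 ≤ C * ε := mul_nonneg hC hε
  rw [abs_le]
  constructor <;> linarith [h1.1, h1.2, h2.1, h2.2, h3.1, h3.2, h4.1, h4.2]

/-- The four entries of `x - 1`; its norm is `nm x`. -/
def GN4_v (x : SL(2, ℝ)) : (ℝ × ℝ) × (ℝ × ℝ) := ((x.1 0 0 - 1, x.1 0 1), (x.1 1 0, x.1 1 1 - 1))

theorem GN4_norm (x : SL(2, ℝ)) : ‖GN4_v x‖ = nm x := by
  simp only [GN4_v, Prod.norm_def, Real.norm_eq_abs, Pool.Agent.VQE.nm]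

theorem GN4_entries (x : SL(2, ℝ)) : |x.1 0 0 - 1| ≤ nm x ∧ |x.1 0 1| ≤ nm x ∧ |x.1 1 0| ≤ nm x ∧ |x.1 1 1 - 1| ≤ nm x :=
  ⟨(le_max_left _ _).trans (le_max_left _ _), (le_max_right _ _).trans (le_max_left _ _),
    (le_max_left _ _).trans (le_max_right _ _), (le_max_right _ _).trans (le_max_right _ _)⟩

theorem GN4_proof (hPN4 : PN4_stmt) : GN4_stmt := by
  intro k0 C
  refine ⟨3 * |C| + 1, by linarith [abs_nonneg C], ?_⟩
  intro D hF E E' t ε g g' hE hE' hEE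
  have hε : 0 ≤ ε := (abs_nonneg _).trans hEE
  have hC1 : 1 ≤ C := hF.C1
  have hC0 : 0 ≤ C := by linarith
  rw [abs_of_nonneg hC0]
  have hder := hPN4 k0 C D hF E E'
  let X : ℝ → SL(2, ℝ) := fun s => Xt D E E' g g' s
  let r : ℝ → ℝ := fun s => rho D.U E (D.fl E s g)
  let k : ℝ → ℝ := fun s => kap D.U E (D.fl E s g)
  let r' : ℝ → ℝ := fun s => rho D.U E' (D.fl E' s g')
  let k' : ℝ → ℝ := fun s => kap D.U E' (D.fl E' s g')
  let u' : ℝ → (ℝ × ℝ) × (ℝ × ℝ) := fun s =>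
    (((r' s - r s) / 2 * (X s).1 0 0 - (k' s * (X s).1 0 1 + k s * (X s).1 1 0) / 2,
      -((r s + r' s) / 2 * (X s).1 0 1) + (k' s * (X s).1 0 0 - k s * (X s).1 1 1) / 2),
     ((r s + r' s) / 2 * (X s).1 1 0 + (k s * (X s).1 0 0 - k' s * (X s).1 1 1) / 2,
      -((r' s - r s) / 2 * (X s).1 1 1) + (k' s * (X s).1 1 0 + k s * (X s).1 0 1) / 2))
  have hu : ∀ s, HasDerivAt (fun s => GN4_v (X s)) (u' s) s := by
    intro s
    obtain ⟨h1, h2, h3, h4⟩ := hder s g g' hE hE' (r s) (k s) (r' s) (k' s) rfl rfl rfl rfl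
    exact ((h1.sub_const 1).prodMk h2).prodMk (h3.prodMk (h4.sub_const 1))
  have hab : ∀ (E : ℝ) (g : SL(2, ℝ)), |E| ≤ k0 → |rho D.U E g| ≤ C := by
    intro E g hE
    obtain ⟨h1, h2⟩ := hF.ro E g hE
    have h3 : 0 ≤ 1 / C := by positivity
    rw [abs_of_nonneg (by linarith)]
    exact h2
  have hb : ∀ s, ‖u' s‖ ≤ (3 * C + 1) * ‖GN4_v (X s)‖ + (3 * C + 1) * ε := by
    intro s
    have hgx : D.fl E s g * X s = D.fl E' s g' := by
      show D.fl E s g * ((D.fl E s g)⁻¹ * D.fl E' s g') = D.fl E' s g'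
      rw [mul_inv_cancel_left]
    have hrr : |r' s - r s| ≤ C * (nm (X s) + ε) := by
      have h := hF.lr E E' (D.fl E s g) (X s) hE hE'
      rw [hgx] at h
      exact h.trans (mul_le_mul_of_nonneg_left (by linarith) hC0)
    have hkk : |k' s - k s| ≤ C * (nm (X s) + ε) := by
      have h := hF.lk E E' (D.fl E s g) (X s) hE hE'
      rw [hgx] at h
      exact h.trans (mul_le_mul_of_nonneg_left (by linarith) hC0)
    have hr : |r s| ≤ C := hab E _ hE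
    have hr' : |r' s| ≤ C := hab E' _ hE'
    have hk : |k s| ≤ C := hF.ka E _ hE
    have hk' : |k' s| ≤ C := hF.ka E' _ hE'
    obtain ⟨h1, h2, h3, h4⟩ := GN4_entries (X s)
    have hN : 0 ≤ nm (X s) := (abs_nonneg _).trans h1
    rw [GN4_norm, Prod.norm_def, Prod.norm_def, Prod.norm_def]
    refine le_trans (max_le (max_le ?_ ?_) (max_le ?_ ?_)) (show 3 * C * nm (X s) + 3 * C * ε ≤ _ by linarith)
    · exact GN4_a hr hr' hk hk' hrr hε h1 h2 h3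
    · have h := GN4_c (a := (X s).1 1 1) (c := (X s).1 0 1) (e := (X s).1 0 0) hr hr' hk hk' hkk hε h4 h2 h1
      rw [Real.norm_eq_abs, ← abs_neg]
      refine le_of_eq_of_le ?_ h
      congr 1
      ring
    · exact GN4_c hr hr' hk hk' hkk hε h1 h3 h4
    · have h := GN4_a (a := (X s).1 1 1) (b := (X s).1 1 0) (c := (X s).1 0 1) hr hr' hk hk' hrr hε h4 h3 h2
      rw [Real.norm_eq_abs, ← abs_neg]
      refine le_of_eq_of_le ?_ h
      congr 1
      ring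
  have h := GN4_gron (fun s => GN4_v (X s)) u' hu (3 * C + 1) ε (by linarith) hε hb t
  rw [GN4_norm, GN4_norm] at h
  have h0 : X 0 = g⁻¹ * g' := by
    show (D.fl E 0 g)⁻¹ * D.fl E' 0 g' = g⁻¹ * g'
    rw [hF.zero, hF.zero]
  rw [h0] at h
  exact h

end Pool.Agent.VN
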